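import Pool.Agent.H.MP_f18a8d_nt.B

namespace Pool.Agent.Results.MP_f18a8d_nt.NotRegular

open Pool.Agent.H.MP_f18a8d_nt

/-- `Q` satisfies the perturbed Hofstadter recurrence (the value `Q 0` is irrelevant). -/
def IsQt (Q : ℕ → ℤ) : Prop :=
  Q 1 = 1 ∧ Q 2 = 1 ∧ ∀ n : ℕ, 3 ≤ n →
    Q n = Q ((n : ℤ) - Q (n - 1)).toNat + Q ((n : ℤ) - Q (n - 2)).toNat + (-1) ^ n

/-- the sign sequence -/
def s (Q : ℕ → ℤ) (n : ℕ) : ℤ := Int.sign (Q (n + 1) - Q n)

/-- the 4-kernel of `t` -/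
def kernel4 (t : ℕ → ℤ) : Set (ℕ → ℤ) :=
  {f | ∃ e c : ℕ, c < 4 ^ e ∧ f = fun n => t (4 ^ e * n + c)}

/-- `t` is 4-regular: the `ℤ`-span of its 4-kernel is finitely generated -/
def Regular4 (t : ℕ → ℤ) : Prop := (Submodule.span ℤ (kernel4 t)).FG

theorem result : (∃ Q, IsQt Q) ∧ ∀ Q, IsQt Q →
    (∀ n : ℕ, 1 ≤ n → 1 ≤ Q n ∧ Q n ≤ n) ∧
    ∀ t, Regular4 t → {n : ℕ | 1 ≤ n ∧ s Q n ≠ t n}.Infinite := by
  refine ⟨⟨fun n => 2 * (hq n : ℤ) - 1, isQ_hq⟩, fun Q (hQ : IsQ Q) => ⟨?_, ?_⟩⟩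
  · intro n hn
    have := hq_bound n hn
    rw [eq_hq hQ n hn]
    omega
  · intro t ht hfin
    obtain ⟨N, hN⟩ := hfin.bddAbove
    have hag : ∀ n, N < n → s Q n = t n := by
      intro n hn
      by_contra hc
      have := hN (show n ∈ {n : ℕ | 1 ≤ n ∧ s Q n ≠ t n} from ⟨by omega, hc⟩)
      omega
    have hK := kernel_finite _ ht
    let g : ℕ → ℕ → ZMod 2 := fun i n =>
      (t (4 ^ (i + N + 2) * n + (D (i + N + 2) + 1 - 4 * (i + N + 2))) : ZMod 2)
    have hval : ∀ i j, i ≤ j → g i (D (j + N + 2)) = if i = j then 0 else 1 := by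
      intro i j hij
      have h1 := sign_vals hQ (i + N + 2) (j + N + 2) (by omega) (by omega)
      have h2 := D_ge (j + N + 2) (by omega)
      have h3 : D (j + N + 2) ≤ 4 ^ (i + N + 2) * D (j + N + 2) :=
        Nat.le_mul_of_pos_left _ (by positivity)
      have h4 := hag (4 ^ (i + N + 2) * D (j + N + 2) + (D (i + N + 2) + 1 - 4 * (i + N + 2)))
        (by omega)
      simp only [g]
      rw [← h4, s, h1]
      by_cases hc : i = j
      · simp [hc]
      · simp [hc]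
    have hinj : Function.Injective g := by
      intro i j hij
      by_contra hne
      rcases lt_or_gt_of_ne hne with h | h
      · have h1 := hval i j h.le
        have h2 := hval j j le_rfl
        rw [hij, h2] at h1
        simp [hne] at h1
      · have h1 := hval j i h.le
        have h2 := hval i i le_rfl
        rw [← hij, h2] at h1
        simp [h.ne] at h1
    refine Set.infinite_of_injective_forall_mem hinj ?_ hK
    intro i
    refine ⟨_, ⟨i + N + 2, D (i + N + 2) + 1 - 4 * (i + N + 2), ?_, rfl⟩, rfl⟩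
    have := D_lt (i + N + 2)
    omega

end Pool.Agent.Results.MP_f18a8d_nt.NotRegular
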